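import Pool.Agent.N841.BI.Main
import Pool.Agent.N841.LZ.Main

/-!
# Barely independent families over `ω₁` and over the continuum
-/

set_option autoImplicit false

open Cardinal Set

namespace Pool.Agent.N841.CC

open _root_.N841.BI (BarelyIndependent TailSplitting Splits splittingNumber reapingNumber)

/-- there is a barely independent family over `κ` (a family of subsets of the initial ordinal
of `κ`) -/
def ExistsBIF (κ : Cardinal.{0}) : Prop :=
  ∃ 𝓘 : Set (Set κ.ord.ToType), BarelyIndependent 𝓘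

lemma mk_card (κ : Cardinal.{0}) : #κ.ord.ToType = κ := by simp

lemma cof_reg {κ : Cardinal.{0}} (h : κ.IsRegular) : (#κ.ord.ToType).ord.cof = κ := by
  rw [mk_card]
  exact h.cof_eq

theorem bounds {κ : Cardinal.{0}} (h : κ.IsRegular) (h0 : ℵ₀ < κ) (hB : ExistsBIF κ) :
    splittingNumber ≤ κ ∧ κ ≤ reapingNumber := by
  obtain ⟨𝓘, h𝓘⟩ := hB
  have hX : ℵ₀ < (#κ.ord.ToType).ord.cof := by rwa [cof_reg h]
  obtain ⟨S, hS⟩ := _root_.N841.BI.tail_of_barely hX h𝓘
  have h1 := _root_.N841.BI.splitting_le hS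
  have h2 := _root_.N841.BI.cof_le_reaping hX hS
  rw [mk_card] at h1
  rw [cof_reg h] at h2
  exact ⟨h1, h2⟩

lemma reaping_le : reapingNumber ≤ 𝔠 := by
  have h1 : reapingNumber ≤ #{R : Set ℕ | R.Infinite} := by
    refine csInf_le' ⟨{R : Set ℕ | R.Infinite}, rfl, fun R hR => hR, ?_⟩
    rintro ⟨S, hS⟩
    have hinf : (S ∪ Sᶜ).Infinite := by
      rw [Set.union_compl_self]
      exact Set.infinite_univ
    rcases Set.infinite_union.1 hinf with h | h
    · exact (hS S h).2 (by simp)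
    · exact (hS Sᶜ h).1 (by simp)
  refine h1.trans ((Cardinal.mk_set_le _).trans ?_)
  simp

lemma cof_c : ℵ₀ < (#(𝔠 : Cardinal.{0}).ord.ToType).ord.cof := by
  rw [mk_card, ← Cardinal.two_power_aleph0]
  exact Cardinal.lt_cof_power le_rfl (by simp)

/-- if `𝔯 = 𝔠` then there is a tail splitting sequence of length `𝔠` -/
lemma tail_of_reaping (h : reapingNumber = 𝔠) :
    ∃ S : (𝔠 : Cardinal.{0}).ord.ToType → Set ℕ, TailSplitting S := by
  have hle : #{R : Set ℕ // R.Infinite} ≤ #(𝔠 : Cardinal.{0}).ord.ToType := by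
    rw [mk_card]
    refine (Cardinal.mk_set_le {R : Set ℕ | R.Infinite}).trans ?_
    simp
  obtain ⟨f⟩ := hle
  haveI : Nonempty {R : Set ℕ // R.Infinite} := ⟨⟨Set.univ, Set.infinite_univ⟩⟩
  let g : (𝔠 : Cardinal.{0}).ord.ToType → {R : Set ℕ // R.Infinite} := Function.invFun f
  have hg : Function.Surjective g := Function.invFun_surjective f.injective
  have hIio : ∀ x : (𝔠 : Cardinal.{0}).ord.ToType, #(Set.Iio x) < 𝔠 := fun x =>
    Cardinal.mk_Iio_ord_toType x
  have key : ∀ x : (𝔠 : Cardinal.{0}).ord.ToType, ∃ S : Set ℕ, ∀ y, y < x → Splits S (g y).1 := by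
    intro x
    by_contra hcon
    have h1 : reapingNumber ≤ #((fun y => (g y).1) '' Set.Iio x) := by
      refine csInf_le' ⟨_, rfl, ?_, ?_⟩
      · rintro _ ⟨y, -, rfl⟩
        exact (g y).2
      · rintro ⟨S, hS⟩
        exact hcon ⟨S, fun y hy => hS _ ⟨y, hy, rfl⟩⟩
    have h2 := (h1.trans Cardinal.mk_image_le).trans_lt (hIio x)
    rw [h] at h2
    exact lt_irrefl _ h2
  choose S hS using key
  refine ⟨S, fun R hR => ?_⟩
  obtain ⟨y, hy⟩ := hg ⟨R, hR⟩
  have hsub : {x | ¬ Splits (S x) R} ⊆ Set.Iic y := by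
    intro x hx
    by_contra hxy
    apply hx
    have := hS x y (not_le.1 hxy)
    rwa [hy] at this
  refine (Cardinal.mk_le_mk_of_subset hsub).trans_lt ?_
  rw [mk_card]
  have h3 : Set.Iic y = insert y (Set.Iio y) := by
    ext z
    simp [le_iff_eq_or_lt]
  rw [h3]
  refine (Cardinal.mk_insert_le).trans_lt ?_
  exact Cardinal.add_lt_of_lt Cardinal.aleph0_le_continuum (hIio y)
    (Cardinal.one_lt_aleph0.trans Cardinal.aleph0_lt_continuum)

theorem exists_of_reaping (h : reapingNumber = 𝔠) : ExistsBIF 𝔠 := by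
  obtain ⟨S, hS⟩ := tail_of_reaping h
  exact _root_.N841.BI.barely_of_tail cof_c hS

lemma cof_one : ℵ₀ < (#(ℵ₁ : Cardinal.{0}).ord.ToType).ord.cof := by
  rw [cof_reg Cardinal.isRegular_aleph_one]
  exact Cardinal.aleph0_lt_aleph_one

lemma small_iff (V : Set (ℵ₁ : Cardinal.{0}).ord.ToType) :
    #V < #(ℵ₁ : Cardinal.{0}).ord.ToType ↔ V.Countable := by
  rw [mk_card]
  exact (Cardinal.countable_iff_lt_aleph_one V).symm

/-- barely independent families over `ω₁` and uncountable splitting families -/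
theorem omega_one : ExistsBIF ℵ₁ ↔ LZ.SplittingLuzinSet := by
  rw [← LZ.tail_iff]
  constructor
  · rintro ⟨𝓘, h𝓘⟩
    obtain ⟨S, hS⟩ := _root_.N841.BI.tail_of_barely cof_one h𝓘
    exact ⟨S, fun R hR => (small_iff _).1 (hS R hR)⟩
  · rintro ⟨S, hS⟩
    exact _root_.N841.BI.barely_of_tail cof_one (S := S) fun R hR => (small_iff _).2 (hS R hR)

theorem aleph_two_regular (h : 𝔠 = (ℵ_ 2 : Cardinal.{0})) : (𝔠 : Cardinal.{0}).IsRegular := by
  rw [h]
  have h2 : (ℵ_ 2 : Cardinal.{0}) = Order.succ (ℵ₁ : Cardinal.{0}) := by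
    rw [← Cardinal.aleph_succ]
    congr 1
    rw [← Ordinal.add_one_eq_succ]
    norm_num
  rw [h2]
  exact Cardinal.isRegular_succ (Cardinal.aleph0_le_aleph 1)

theorem continuum_iff (h : (𝔠 : Cardinal.{0}).IsRegular) : ExistsBIF 𝔠 ↔ reapingNumber = 𝔠 :=
  ⟨fun hB => le_antisymm reaping_le (bounds h Cardinal.aleph0_lt_continuum hB).2,
    exists_of_reaping⟩

theorem omega_one_of (h : LZ.dominatingNumber = ℵ₁ ∨ LZ.SierpinskiSet) (hDOM : LZ.S_DOM)
    (hSIER : LZ.S_SIER) : ExistsBIF ℵ₁ := by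
  rw [omega_one, ← LZ.tail_iff]
  rcases h with h | h
  · exact hDOM h
  · exact hSIER h

/-- the case `𝔠 = ω₂` -/
theorem case_two (h : 𝔠 = (ℵ_ 2 : Cardinal.{0})) :
    (ExistsBIF 𝔠 ↔ reapingNumber = 𝔠) ∧
    (ExistsBIF ℵ₁ ∨ ExistsBIF 𝔠 ↔ LZ.SplittingLuzinSet ∨ reapingNumber = 𝔠) ∧
    (reapingNumber < splittingNumber → ¬ ExistsBIF ℵ₁ ∧ ¬ ExistsBIF 𝔠) := by
  have h1 := continuum_iff (aleph_two_regular h)
  refine ⟨h1, by rw [h1, omega_one], fun hlt => ⟨fun hB => ?_, fun hB => ?_⟩⟩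
  · obtain ⟨h2, h3⟩ := bounds Cardinal.isRegular_aleph_one Cardinal.aleph0_lt_aleph_one hB
    exact absurd (h2.trans h3) (not_le.2 hlt)
  · obtain ⟨h2, h3⟩ := bounds (aleph_two_regular h) Cardinal.aleph0_lt_continuum hB
    exact absurd (h2.trans h3) (not_le.2 hlt)

end Pool.Agent.N841.CC
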