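import Pool.Agent.N841.LZ.Main

/-!
# Tail-splitting sequences and the polarized partition relation
-/

set_option autoImplicit false

open Set

namespace Pool.Agent.N841.CC

open Pool.Agent.N841.LZ

/-- A tail-splitting sequence of length `ω₁` exists if and only if some `f : ω₁ × ω → 2` is constant
on no product of an uncountable and an infinite set. -/
theorem polarized : (∃ S : Om → Set ℕ, TailSplitting S) ↔
    ∃ f : Om → ℕ → Bool, ∀ (A : Set Om) (R : Set ℕ) (b : Bool), R.Infinite →
      (∀ a ∈ A, ∀ n ∈ R, f a n = b) → A.Countable := by
  classical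
  constructor
  · rintro ⟨S, hS⟩
    refine ⟨fun a n => decide (n ∈ S a), fun A R b hR h => ?_⟩
    have hsub : A ⊆ {a | ¬ Splits (S a) R} := by
      intro a ha hsp
      have hh := h a ha
      cases b
      · apply hsp.1
        convert Set.finite_empty
        ext n
        simp only [Set.mem_inter_iff, Set.mem_empty_iff_false, iff_false, not_and]
        intro hn
        simpa using hh n hn
      · apply hsp.2
        convert Set.finite_empty
        ext n
        simp only [Set.mem_sdiff, Set.mem_empty_iff_false, iff_false, not_and, not_not]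
        intro hn
        simpa using hh n hn
    exact (hS R hR).mono hsub
  · rintro ⟨f, hf⟩
    refine ⟨fun a => {n | f a n = true}, fun R hR => ?_⟩
    have hV : ∀ p : ℕ × Bool, {a : Om | ∀ n ∈ R, p.1 ≤ n → f a n = p.2}.Countable := by
      rintro ⟨k, b⟩
      have hR' : {n | n ∈ R ∧ k ≤ n}.Infinite := by
        intro hfin
        refine hR ((hfin.union (Set.finite_lt_nat k)).subset fun n hn => ?_)
        rcases le_or_gt k n with h | h
        · exact Or.inl ⟨hn, h⟩
        · exact Or.inr h
      exact hf _ _ b hR' fun a ha n hn => ha n hn.1 hn.2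
    refine (Set.countable_iUnion hV).mono fun a ha => ?_
    have ha' : ¬ Splits {n | f a n = true} R := ha
    unfold Splits at ha'
    rw [not_and_or, Set.not_infinite, Set.not_infinite] at ha'
    rw [Set.mem_iUnion]
    rcases ha' with h | h
    · obtain ⟨k, hk⟩ := h.bddAbove
      refine ⟨(k + 1, false), fun n hn hkn => ?_⟩
      by_contra hne
      have hne' : f a n = true := by simpa using hne
      have := hk ⟨hn, hne'⟩
      have h3 : k + 1 ≤ n := hkn
      omega
    · obtain ⟨k, hk⟩ := h.bddAbove
      refine ⟨(k + 1, true), fun n hn hkn => ?_⟩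
      by_contra hne
      have := hk ⟨hn, hne⟩
      have h3 : k + 1 ≤ n := hkn
      omega

end Pool.Agent.N841.CC
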